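import Pool.Agent.Work.MP_c93117_an.Neg.Main
import Pool.Agent.Work.MP_c93117_an.I.Dug

/-!
# MP_c93117_an: from the projection of project Neg to all readings of the negative answer

Compact spaces `L` in all universes, metric or not, Hausdorff or not; every compact metric space
`K` which contains a copy of the countable space of project Neg, in particular every uncountable one.
-/

set_option autoImplicit false
set_option linter.style.haveILetI false

noncomputable section

universe u v w

namespace Pool.Agent.Work.MP_c93117_an.Full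

open Pool.Agent.Work.MP_c93117_an

/-- The range of the projection `P` is not isomorphic to `C(L)`, `L` compact metric. -/
def NoC {Y : Type u} [NormedAddCommGroup Y] [NormedSpace ℝ Y] (P : Y →L[ℝ] Y) : Prop :=
  ∀ (L : Type) [MetricSpace L] [CompactSpace L] (U : C(L, ℝ) →L[ℝ] Y) (T : Y →L[ℝ] C(L, ℝ)),
    (∀ φ, T (U φ) = φ) → (∀ g, U (T g) = P g) → False

/-- The projection of project Neg. -/
theorem base : ∃ P : C(Neg.K, ℝ) →L[ℝ] C(Neg.K, ℝ), (∀ g, P (P g) = P g) ∧ NoC P := by
  refine ⟨Neg.AuxFinal.Pcl Neg.all_Cont Neg.all_Norm,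
    Neg.AuxFinal.Pcl_idem Neg.all_Cont Neg.all_Norm Neg.all_Idem, ?_⟩
  intro L _ _ U T h1 h2
  exact Neg.all_NotIso _ (fun g q => rfl) L U T h1 h2

/-- Transfer to a space which contains the given one as a complemented subspace. -/
theorem transfer {Y : Type u} [NormedAddCommGroup Y] [NormedSpace ℝ Y]
    {Y0 : Type v} [NormedAddCommGroup Y0] [NormedSpace ℝ Y0] (E : Y0 →L[ℝ] Y) (R : Y →L[ℝ] Y0)
    (hRE : ∀ y, R (E y) = y) (P0 : Y0 →L[ℝ] Y0) (hP : ∀ y, P0 (P0 y) = P0 y) (h : NoC P0) :
    ∃ P : Y →L[ℝ] Y, (∀ y, P (P y) = P y) ∧ NoC P := by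
  refine ⟨E ∘L (P0 ∘L R), ?_, ?_⟩
  · intro y
    simp only [ContinuousLinearMap.comp_apply, hRE, hP]
  · intro L _ _ U T h1 h2
    have h3 : ∀ φ, E (R (U φ)) = U φ := by
      intro φ
      have h4 : U φ = E (P0 (R (U φ))) := by
        have h5 := h2 (U φ)
        rw [h1] at h5
        simpa only [ContinuousLinearMap.comp_apply] using h5
      rw [h4, hRE]
    refine h L (R ∘L U) (T ∘L E) ?_ ?_
    · intro φ
      simp only [ContinuousLinearMap.comp_apply, h3, h1]
    · intro g
      simp only [ContinuousLinearMap.comp_apply, h2, hRE]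

/-- Composition with a continuous map. -/
def pre {K : Type u} [TopologicalSpace K] [CompactSpace K] {K' : Type v} [TopologicalSpace K']
    [CompactSpace K'] (f : C(K', K)) : C(K, ℝ) →L[ℝ] C(K', ℝ) :=
  LinearMap.mkContinuous
    { toFun := fun g => g.comp f
      map_add' := fun _ _ => rfl
      map_smul' := fun _ _ => rfl } 1 (by
    intro g
    rw [one_mul, ContinuousMap.norm_le _ (norm_nonneg _)]
    intro x
    exact g.norm_coe_le_norm (f x))

theorem pre_apply {K : Type u} [TopologicalSpace K] [CompactSpace K] {K' : Type v}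
    [TopologicalSpace K'] [CompactSpace K'] (f : C(K', K)) (g : C(K, ℝ)) (x : K') :
    pre f g x = g (f x) := rfl

/-- If `K` contains a copy of `K0` then `C(K0)` is complemented in `C(K)` (Borsuk, Dugundji). -/
theorem exists_ext {K0 : Type u} [TopologicalSpace K0] [CompactSpace K0] [Nonempty K0]
    {K : Type v} [MetricSpace K] [CompactSpace K] (i : K0 → K) (hi : Continuous i)
    (hinj : Function.Injective i) :
    ∃ (E : C(K0, ℝ) →L[ℝ] C(K, ℝ)) (R : C(K, ℝ) →L[ℝ] C(K0, ℝ)), ∀ g, R (E g) = g := by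
  have hemb : Topology.IsClosedEmbedding i := hi.isClosedEmbedding hinj
  haveI : CompactSpace (Set.range i) := isCompact_iff_compactSpace.1 (isCompact_range hi)
  obtain ⟨E, hE, -⟩ := I.exists_extension (Set.range i) (Set.range_nonempty i)
  let e : K0 ≃ₜ Set.range i := hemb.toIsEmbedding.toHomeomorph
  refine ⟨E ∘L pre (e.symm : C(Set.range i, K0)), pre ⟨i, hi⟩, ?_⟩
  intro g
  ext x
  rw [pre_apply]
  have h1 : (⟨i, hi⟩ : C(K0, K)) x = (e x).1 := rfl
  rw [h1, ContinuousLinearMap.comp_apply, hE, pre_apply]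
  congr 1
  exact e.symm_apply_apply x

/-- The bad projection exists in `C(K)` for each `K` containing a copy of the countable space. -/
theorem exists_proj {K : Type v} [MetricSpace K] [CompactSpace K] (i : Neg.K → K)
    (hi : Continuous i) (hinj : Function.Injective i) :
    ∃ P : C(K, ℝ) →L[ℝ] C(K, ℝ), (∀ g, P (P g) = P g) ∧ NoC P := by
  haveI : Nonempty Neg.K := ⟨Neg.K.oo⟩
  obtain ⟨P0, h1, h2⟩ := base
  obtain ⟨E, R, hRE⟩ := exists_ext i hi hinj
  exact transfer E R hRE P0 h1 h2

/-- The countable space embeds in the Cantor space. -/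
theorem embed_cantor : ∃ f : Neg.K → (ℕ → Bool), Continuous f ∧ Function.Injective f := by
  classical
  haveI : Nonempty Neg.K := ⟨Neg.K.oo⟩
  obtain ⟨s, hs⟩ := exists_surjective_nat Neg.K
  refine ⟨fun v n => decide (s n ≤ v), ?_, ?_⟩
  · have h0 : Continuous (fun (v : Neg.K) (u : Neg.K) => decide (u ≤ v)) :=
      continuous_induced_dom
    exact continuous_pi (fun n => (continuous_pi_iff.1 h0) (s n))
  · intro v v' h
    apply Neg.cone_inj Neg.K (fun u v => Classical.propDecidable _)
    funext u
    obtain ⟨n, rfl⟩ := hs u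
    exact congrFun h n

/-- The countable space embeds in every uncountable compact metric space. -/
theorem embed_uncountable (K : Type v) [MetricSpace K] [CompactSpace K] (hK : ¬ Countable K) :
    ∃ i : Neg.K → K, Continuous i ∧ Function.Injective i := by
  obtain ⟨f, hf, hf2⟩ := embed_cantor
  have h1 : ¬ (Set.univ : Set K).Countable := fun h => hK (Set.countable_univ_iff.1 h)
  obtain ⟨g, -, hg, hg2⟩ := isClosed_univ.exists_nat_bool_injection_of_not_countable h1
  exact ⟨g ∘ f, hg.comp hf, hg2.comp hf2⟩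

/-- If `C(L)` is separable then it is isometric to `C(M)`, `M` compact metric. -/
theorem exists_metric_model (L : Type w) [TopologicalSpace L] [CompactSpace L]
    [TopologicalSpace.SeparableSpace C(L, ℝ)] :
    ∃ (M : Type) (_ : MetricSpace M) (_ : CompactSpace M), Nonempty (C(M, ℝ) ≃L[ℝ] C(L, ℝ)) := by
  let f : ℕ → C(L, ℝ) := TopologicalSpace.denseSeq C(L, ℝ)
  let Φ : L → (ℕ → ℝ) := fun x n => f n x
  have hΦ : Continuous Φ := continuous_pi (fun n => (f n).continuous)
  let M : Type := Set.range Φ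
  haveI : CompactSpace M := isCompact_iff_compactSpace.1 (isCompact_range hΦ)
  letI : MetricSpace M := TopologicalSpace.metrizableSpaceMetric M
  let q : C(L, M) := ⟨fun x => ⟨Φ x, x, rfl⟩, by fun_prop⟩
  have hq : Function.Surjective q := by
    rintro ⟨_, x, rfl⟩
    exact ⟨x, rfl⟩
  let A : C(M, ℝ) →ₗᵢ[ℝ] C(L, ℝ) :=
    { toFun := fun g => g.comp q
      map_add' := fun _ _ => rfl
      map_smul' := fun _ _ => rfl
      norm_map' := by
        intro g
        apply le_antisymm
        · rw [ContinuousMap.norm_le _ (norm_nonneg _)]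
          intro x
          exact g.norm_coe_le_norm (q x)
        · rw [ContinuousMap.norm_le _ (norm_nonneg _)]
          intro y
          obtain ⟨x, rfl⟩ := hq y
          exact (ContinuousMap.comp g q).norm_coe_le_norm x }
  have hcl : IsClosed (Set.range A) := A.isometry.isClosedEmbedding.isClosed_range
  have hden : Dense (Set.range A) := by
    refine (TopologicalSpace.denseRange_denseSeq C(L, ℝ)).mono ?_
    rintro _ ⟨n, rfl⟩
    refine ⟨⟨fun y => y.1 n, (continuous_apply n).comp continuous_subtype_val⟩, ?_⟩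
    ext x
    rfl
  have hsurj : Function.Surjective A := by
    intro g
    have : g ∈ closure (Set.range A) := hden g
    rwa [hcl.closure_eq] at this
  exact ⟨M, inferInstance, inferInstance,
    ⟨(LinearIsometryEquiv.ofSurjective A hsurj).toContinuousLinearEquiv⟩⟩

theorem ofBij {E : Type u} [NormedAddCommGroup E] [NormedSpace ℝ E] [CompleteSpace E]
    {F : Type v} [NormedAddCommGroup F] [NormedSpace ℝ F] [CompleteSpace F] (S : E →L[ℝ] F)
    (hS : Function.Bijective S) : Nonempty (E ≃L[ℝ] F) :=
  ⟨ContinuousLinearEquiv.ofBijective S (LinearMap.ker_eq_bot.2 hS.1)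
    (LinearMap.range_eq_top.2 hS.2)⟩

/-- The conclusion, for the range of a bad projection. -/
theorem conclude {K : Type v} [MetricSpace K] [CompactSpace K] (P : C(K, ℝ) →L[ℝ] C(K, ℝ))
    (hP : ∀ g, P (P g) = P g) (h : NoC P) :
    ∃ X : Submodule ℝ C(K, ℝ), IsClosed (X : Set C(K, ℝ)) ∧
      Set.range P = (X : Set C(K, ℝ)) ∧ ¬ FiniteDimensional ℝ X ∧
      ∀ (L : Type w) [TopologicalSpace L] [CompactSpace L] (S : X →L[ℝ] C(L, ℝ)),
        ¬ Function.Bijective S := by
  set X := LinearMap.range (P : C(K, ℝ) →ₗ[ℝ] C(K, ℝ)) with hX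
  have hfix : ∀ x ∈ X, P x = x := by
    rintro _ ⟨g, rfl⟩
    exact hP g
  have hcl : IsClosed (X : Set C(K, ℝ)) := by
    have h1 : (X : Set C(K, ℝ)) = {g | P g = g} := by
      ext g
      constructor
      · exact fun hg => hfix g hg
      · exact fun hg => ⟨g, hg⟩
    rw [h1]
    exact isClosed_eq P.continuous continuous_id
  let Q : C(K, ℝ) →L[ℝ] X := P.codRestrict X (fun g => ⟨g, rfl⟩)
  have key : ∀ (L : Type) (_ : MetricSpace L) (_ : CompactSpace L), (X ≃L[ℝ] C(L, ℝ)) → False := by
    intro L i1 i2 e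
    refine h L (X.subtypeL.comp (e.symm : C(L, ℝ) →L[ℝ] X)) ((e : X →L[ℝ] C(L, ℝ)).comp Q) ?_ ?_
    · intro φ
      show e (Q ((e.symm φ : X) : C(K, ℝ))) = φ
      have : Q ((e.symm φ : X) : C(K, ℝ)) = e.symm φ := Subtype.ext (hfix _ (e.symm φ).2)
      rw [this, e.apply_symm_apply]
    · intro g
      show ((e.symm (e (Q g)) : X) : C(K, ℝ)) = P g
      rw [e.symm_apply_apply]
      rfl
  refine ⟨X, hcl, ?_, ?_, ?_⟩
  · rw [hX]
    ext g
    simp
  · intro hf
    have h5 : Module.finrank ℝ C(Fin (Module.finrank ℝ X), ℝ) = Module.finrank ℝ X := by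
      rw [(Neg.AuxFinal.finC _).finrank_eq, Module.finrank_fin_fun]
    haveI : FiniteDimensional ℝ C(Fin (Module.finrank ℝ X), ℝ) :=
      LinearEquiv.finiteDimensional (Neg.AuxFinal.finC _).symm
    exact key (Fin (Module.finrank ℝ X)) (TopologicalSpace.metrizableSpaceMetric _) inferInstance
      (ContinuousLinearEquiv.ofFinrankEq h5.symm)
  · intro L _ _ S hS
    haveI : CompleteSpace X := hcl.completeSpace_coe
    haveI : TopologicalSpace.SeparableSpace X := inferInstance
    haveI : TopologicalSpace.SeparableSpace C(L, ℝ) :=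
      hS.2.denseRange.separableSpace S.continuous
    obtain ⟨M, i1, i2, ⟨e⟩⟩ := exists_metric_model L
    obtain ⟨e1⟩ := ofBij (E := X) (F := C(L, ℝ)) S hS
    exact key M i1 i2 (e1.trans e.symm)

end Pool.Agent.Work.MP_c93117_an.Full

end
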